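import Pool.Agent.Helper46.NB.Defs
import Pool.Agent.Helper15.LR.Defs

/-!
Project NB: statements, with proofs.  Typist of row X: file Pool/Agent/HelperNN/NB/X.lean, theorem
`Pool.Agent.HelperNN.NB.st_X : ST_dep1 → ... → ST_X`  (namespace of the statements:
`Pool.Agent.Helper46.NB`).
-/

set_option autoImplicit false

namespace Pool.Agent.Helper46.NB

open Finset
open scoped Classical

noncomputable section

/-! ## Probability tools -/

/-- MG (exponential moments for predictable sparse differences).  `R i ω` = the relevant values of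
coordinate `i`; it depends only on the coordinates of smaller rank.  Changing coordinate `i` between
non-relevant values does not change `f`, and any change of one coordinate changes `f` by at most `b`.
PROOF.  Transport to `Fin n` with a bijection which is monotone in `rk` (sort).  By induction on `n`
(`Fin.cons`): for `0 ≤ lam`, `lam * b ≤ 1/2`:  average of
`exp (lam (f - avg f) - lam² b² ∑ i, card (R i ω) / card A) ≤ 1`.  Step: `g a = avg (f (cons a ·))`; if some `a0` is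
not relevant put `g0 = g a0`, otherwise `g0 = g a` for any `a`; `h = g - g0` satisfies `|h| ≤ b`, `h = 0`
off `R`, `|h - avg h| ≤ b`, so `exp x ≤ 1 + x + x²` for `|x| ≤ 1` (Real.abs_exp_sub_one_sub_id_le) gives
`avg exp (lam (h - avg h)) ≤ 1 + lam² avg h² ≤ exp (lam² b² card R / card A)`.  Then Markov with
`lam = s / (2 b² V)`. -/
def ST_MG : Prop :=
  ∀ (I A : Type) [Fintype I] [Fintype A] [Nonempty A] (f : (I → A) → ℝ) (rk : I → ℕ)
    (R : I → (I → A) → Finset A) (b Vv : ℝ), 0 < b → 0 < Vv →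
    (∀ i ω ω', (∀ j, rk j < rk i → ω j = ω' j) → R i ω = R i ω') →
    (∀ i ω a, |f (Function.update ω i a) - f ω| ≤ b) →
    (∀ i ω a, ω i ∉ R i ω → a ∉ R i ω → f (Function.update ω i a) = f ω) →
    (∀ ω, ∑ i, (#(R i ω) : ℝ) ≤ Vv * Fintype.card A) →
    ∀ s : ℝ, 0 ≤ s → s ≤ b * Vv →
      (#(univ.filter fun ω : I → A => (∑ ω', f ω') / (Fintype.card (I → A) : ℝ) + s ≤ f ω) : ℝ) ≤
        Real.exp (-(s ^ 2 / (4 * b ^ 2 * Vv))) * (Fintype.card (I → A) : ℝ)

/-- PROD (product rule).  Count of a box. -/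
def ST_PROD : Prop :=
  ∀ (V : Type) [Fintype V] (N : ℕ), 0 < N → ∀ (S : Finset (Sym2 V)) (A : Sym2 V → Finset (Fin N)),
    Pr (fun ω : Sym2 V → Fin N => ∀ e ∈ S, ω e ∈ A e) = ∏ e ∈ S, ((#(A e) : ℝ) / (N : ℝ))

/-- PICK: pick functions exist (enumerate every list). -/
def ST_PICK : Prop :=
  ∀ (V : Type) [Fintype V] (E : Finset (Sym2 V)) (L : Sym2 V → Finset ℕ) (N : ℕ),
    (∀ e ∈ E, #(L e) ≤ N) → ∃ pick : Sym2 V → Fin N → Option ℕ, IsPick E L N pick

/-! ## Probabilities in a regular state.  `2 ≤ N` everywhere. -/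

/-- P1: a given edge retains a given colour of its list with probability `th N t`.
PROOF.  The edges of `E` adjacent to `e = vw` with `c` in their list: `T v c` and `T w c` contain `e`, so
they have `t` elements each, and they meet only in `e` (an edge containing `v` and `w` is `e`): `2t - 2`
edges, each of which must avoid exactly one value; edges with `c` not in the list never pick `c`.
ST_PROD. -/
def ST_P1 : Prop :=
  ∀ (V : Type) [Fintype V] (N : ℕ), 2 ≤ N → ∀ (E : Finset (Sym2 V)) (L : Sym2 V → Finset ℕ)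
    (l t D : ℕ) (pick : Sym2 V → Fin N → Option ℕ), Reg E L l t D → IsPick E L N pick →
    ∀ e ∈ E, ∀ c ∈ L e, Pr (fun ω => Ret E pick ω e c) = th N t

/-- P2: probability that `c` is lost at `v` (the events `Ret e c`, `e ∈ T v c`, exclude each other, and
`Ret e c` with `v ∈ e` implies `e ∈ T v c`; from P1). -/
def ST_P2 : Prop :=
  ∀ (V : Type) [Fintype V] (N : ℕ), 2 ≤ N → ∀ (E : Finset (Sym2 V)) (L : Sym2 V → Finset ℕ)
    (l t D : ℕ) (pick : Sym2 V → Fin N → Option ℕ), Reg E L l t D → IsPick E L N pick →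
    ∀ v c, (T E L v c).Nonempty → Pr (fun ω => Lost E pick ω v c) = t * th N t

/-- P3: `f = vw ∈ E`, `c ∈ L f`: both endpoints lose `c` with probability at least
`(t-1)(t-2) th²`.
PROOF.  The events `Ret e c ∧ Ret g c`, `e ∈ T v c - f`, `g ∈ T w c - f`, are disjoint for different
pairs `(e, g)`.  `e ≠ g` always (an edge through `v` and `w` is `f`).  For given `e = vx` at most one `g` is
adjacent to `e` (`g = wx`), so at least `(t-1)(t-1) - (t-1)` pairs are not adjacent.  For a non adjacent pair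
the two edges must pick `c` (probability `1/N` each) and the edges `h ≠ e, g` adjacent to `e` or to `g` with
`c ∈ L h`, at most `4t-4` of them, must not pick `c`: probability at least
`(1/N)² (1-1/N)^(4t-4) = th²`. -/
def ST_P3 : Prop :=
  ∀ (V : Type) [Fintype V] (N : ℕ), 2 ≤ N → ∀ (E : Finset (Sym2 V)) (L : Sym2 V → Finset ℕ)
    (l t D : ℕ) (pick : Sym2 V → Fin N → Option ℕ), Reg E L l t D → IsPick E L N pick →
    ∀ f ∈ E, ∀ c ∈ L f, ∀ v ∈ f, ∀ w ∈ f, v ≠ w →
      ((t : ℝ) - 1) * ((t : ℝ) - 2) * th N t ^ 2 ≤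
        Pr (fun ω => Lost E pick ω v c ∧ Lost E pick ω w c)

/-- P4: `f ∈ E` retains `c' ∈ L f` and another edge `g` at the endpoint `w` of `f` retains `c ∈ L f ∩ L g`,
`c ≠ c'`.
PROOF.  `f` picks `c'`, `g` picks `c`; every `h ∉ {f, g}` adjacent to `f` with `c' ∈ L h` avoids the value of
`c'` (at least `2t-3` such `h`: `T v c'` and `T w c'` without `f`, minus possibly `g`); every `h ∉ {f, g}`
adjacent to `g` with `c ∈ L h` avoids the value of `c` (at least `2t-3` such `h`).  If `h` avoids two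
different values: `1 - 2/N ≤ (1-1/N)²`.  So the probability is at most `(1/N)² (1-1/N)^(4t-6)`
(for `t = 1` there is no such `g`; `f, g ∈ T w c` so `t ≥ 2`). -/
def ST_P4 : Prop :=
  ∀ (V : Type) [Fintype V] (N : ℕ), 2 ≤ N → ∀ (E : Finset (Sym2 V)) (L : Sym2 V → Finset ℕ)
    (l t D : ℕ) (pick : Sym2 V → Fin N → Option ℕ), Reg E L l t D → IsPick E L N pick →
    ∀ f ∈ E, ∀ c' ∈ L f, ∀ c ∈ L f, c ≠ c' → ∀ w ∈ f, ∀ g ∈ T E L w c, g ≠ f →
      Pr (fun ω => Ret E pick ω f c' ∧ Ret E pick ω g c) * (1 - 1 / (N : ℝ)) ^ 2 ≤ th N t ^ 2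

/-- E1: expected number of lost colours.
PROOF.  `P(Lost v c or Lost w c) = 2 t th - P(both) ≤ 2 t th - (t-1)(t-2) th² ≤ 1 - K² + 3 t th²` with
`K = 1 - t th`; `th ≤ 1/(4l)`, `t ≤ l`, so the sum of the `l` terms `3 t th²` is at most `1`. -/
def ST_E1 : Prop :=
  ∀ (V : Type) [Fintype V] (E : Finset (Sym2 V)) (L : Sym2 V → Finset ℕ)
    (l t D : ℕ) (pick : Sym2 V → Fin (4 * l) → Option ℕ), 1 ≤ l → t ≤ l → Reg E L l t D →
    IsPick E L (4 * l) pick → ∀ f ∈ E, #(L f) = l →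
      Av (XX E L pick f) ≤ l * (1 - KK l t ^ 2) + 1

/-- E2: expected number of edges `f ∈ R ∩ T v c` which are uncoloured and whose other endpoint `w` does not
lose `c`.
PROOF.  For each such `f`: `P(f uncoloured, not Lost w c) = P(not Lost w c) - ∑_{c' ∈ L f} P(Ret f c', not
Lost w c)`, the term `c' = c` is `0`, for `c' ≠ c`: `P(Ret f c' and not Lost w c) ≥ th - ∑_{g ∈ T w c, g ≠ f}
P(Ret f c', Ret g c) ≥ th - (t-1) th² (1 + 4/N)` (ST_P4, `(1-x)^(-2) ≤ 1 + 4x` for `x ≤ 1/4`).  With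
`N = 4l`, `K = KK l t`, `a = aa l t`: total `≤ K - (l-1) th (K - 1/N) ≤ K (1 - a) + 1/(2l)`; at most `t ≤ l`
edges `f`. -/
def ST_E2 : Prop :=
  ∀ (V : Type) [Fintype V] (E R : Finset (Sym2 V)) (L : Sym2 V → Finset ℕ)
    (l t D : ℕ) (pick : Sym2 V → Fin (4 * l) → Option ℕ), 1 ≤ l → t ≤ l → Reg E L l t D →
    IsPick E L (4 * l) pick → R ⊆ E → (∀ e ∈ R, #(L e) = l) → ∀ v c,
      Av (YY E R L pick v c) ≤ t * KK l t * (1 - aa l t) + 1

/-- C1: concentration of `XX`, from ST_MG with `b = 2`, `Vv = t` (`N = 4l`).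
Let `f = vw ∈ E`.  Rank 0: edges containing `v` or `w`, rank 1: the other elements of `Sym2 V`.
Relevant values.  Rank 0, `e ∈ E`: the `a` with `pick e a ∈ L f`; total `≤ ∑_{c ∈ L f} (card (T v c) + card (T w c)) ≤
2 t l`.  Rank 1, `g ∈ E`: the `a` with `pick g a = some c`, `c ∈ L f`, such that for `u = v` or `u = w` exactly
one edge `e` of `E` at `u` picks `c` and this `e` is adjacent to `g`; total `≤ 2 l t` (for each `c ∈ L f`, `u`:
`g ∈ T x c` where `e = ux`).  Sum `≤ 4 t l = t N`.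
A change of the coordinate of one edge from picking `c1` to picking `c2` changes the status (lost or not at
`v` or `w`) of no colour except `c1, c2`: `b = 2`.  Non relevant values: if two or more edges at `u` pick `c`,
none of them retains `c`, whatever `g` does; if none does, the same; if exactly one, `e`, only edges adjacent
to `e` matter. -/
def ST_C1 : Prop :=
  ∀ (V : Type) [Fintype V] (E : Finset (Sym2 V)) (L : Sym2 V → Finset ℕ)
    (l t D : ℕ) (pick : Sym2 V → Fin (4 * l) → Option ℕ), 1 ≤ l → 1 ≤ t → t ≤ l → Reg E L l t D →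
    IsPick E L (4 * l) pick → ∀ f ∈ E, #(L f) = l → ∀ s : ℝ, 0 ≤ s → s ≤ 2 * t →
      Pr (fun ω => Av (XX E L pick f) + s ≤ XX E L pick f ω) ≤ Real.exp (-(s ^ 2 / (16 * t)))

/-- C2: concentration of `YY`, from ST_MG with `b = 8`, `Vv = 5t/4` (`N = 4l`), so the exponent is
`s² / (4 · 64 · 5t/4) = s² / (320 t)`.
Let `F = T v c`.  Ranks: 0 = edges of `F`; 1 = other edges at `v`; 2 = edges not at `v` with an endpoint `w`
such that `vw ∈ F`; 3 = the rest.  Relevant values:
rank 0, `f ∈ F`: the `a` with `pick f a ≠ none` (total `≤ t l`);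
rank 1, `e`: the `a` with `pick e a = some c'` where some `f ∈ F` picks `c'` (total `≤ ∑_{f ∈ F} card (T v c'_f) ≤ t²`);
rank 2, `g`: `pick g a = some c`, or `pick g a = some c'` where some `f = vw ∈ F`, `w ∈ g`, picks `c'`
(total `≤ ∑_{f ∈ F} (card (T w c) + card (T w c'_f)) ≤ 2 t²`);
rank 3, `h`: `pick h a = some c` if for some `f = vw ∈ F` exactly one edge `g` of `E` at `w` picks `c` and `g` is
adjacent to `h` (then `h ∈ T x c`, `g = wx`; total `≤ t²`).
Sum `≤ t l + 4 t² ≤ 5 t l = (5t/4) N`.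
Effect of one coordinate `i` (pick `c1` replaced by `c2`) on the number of `f ∈ F` which are uncoloured with `c`
not lost at the other endpoint:  (a) coloured / uncoloured changes only for `f = i`, for the `f ∈ F` adjacent to
`i` which picks `c1` and was/becomes the only one (if `i` is at `v`: at most one for `c1`, one for `c2`; if `i` is
not at `v`: at most two `f` meet `i`): at most 3;  (b) if `c ∈ {c1, c2}`: the set of vertices where `c` is lost
= vertices covered by the retained `c`-edges, a matching; adding a pick of `c` at `i` removes at most the two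
retained edges adjacent to `i` and perhaps adds `i`: at most 4 vertices change.  Total `≤ 7 ≤ b`.
Proof form: give a set of at most 8 edges outside which the status does not change. -/
def ST_C2 : Prop :=
  ∀ (V : Type) [Fintype V] (E R : Finset (Sym2 V)) (L : Sym2 V → Finset ℕ)
    (l t D : ℕ) (pick : Sym2 V → Fin (4 * l) → Option ℕ), 1 ≤ l → 1 ≤ t → t ≤ l → Reg E L l t D →
    IsPick E L (4 * l) pick → R ⊆ E → ∀ v c, ∀ s : ℝ, 0 ≤ s → s ≤ 10 * t →
      Pr (fun ω => Av (YY E R L pick v c) + s ≤ YY E R L pick v c ω) ≤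
        Real.exp (-(s ^ 2 / (320 * t)))

/-! ## One step -/

/-- REG1: one step in a regular state, by the local lemma (`Pool.Agent.Helper86.BF.lll`) on
`Sym2 V → Fin (4l)` from E1, E2, C1, C2.
Events: `A f` (`f ∈ R`): `XX f ≥ Av + s`; it depends on the edges `g` for which there is `e ∈ E` with `g ∩ e`,
`e ∩ f` nonempty.  `B v c` (`T v c` nonempty): `YY v c ≥ Av + s`; depends on the `g` for which there are
`e, e' ∈ E`, `v ∈ e'`, `g ∩ e`, `e ∩ e'` nonempty.  With `M = D + D l t ≤ 3 D³` = bound on the degrees (so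
every edge meets at most `2M` edges of `E`, itself included): each event has at most `4M³` coordinates, each
coordinate is in at most `4M²` events `A` and `8M³ l` events `B`, so `d ≤ 4M³ (4M² + 8 M³ l) ≤ 48 M⁶ l ≤
48 · 3⁶ · 2 · D^19` and `4 d ≤ D^20` as `D ≥ 10⁶`.  `s = ss t D = 100 √(t log D)`: probabilities
`≤ exp (-s²/(320 t)) ≤ D^(-31)`; `s ≤ 2t` because `10⁴ log D ≤ t`.  (Index type of the events: any
finite type, e.g. `Sym2 V ⊕ V × P`, `P` the finite set of all colours in the lists.) -/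
def ST_REG1 : Prop :=
  ∀ (D : ℕ), 10 ^ 6 ≤ D → ∀ (l t : ℕ) (V : Type) [Fintype V] (E R : Finset (Sym2 V))
    (L : Sym2 V → Finset ℕ), Reg E L l t (D + D * l * t) → R ⊆ E → (∀ e ∈ R, #(L e) = l) →
    1 ≤ t → t ≤ l → t ≤ D → l ≤ 2 * D → 10 ^ 4 * Real.log D ≤ t →
    ∃ (pick : Sym2 V → Fin (4 * l) → Option ℕ) (ω : Sym2 V → Fin (4 * l)),
      IsPick E L (4 * l) pick ∧
      (∀ f ∈ R, XX E L pick f ω < l * (1 - KK l t ^ 2) + 1 + ss t D) ∧
      ∀ v c, YY E R L pick v c ω < t * KK l t * (1 - aa l t) + 1 + ss t D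

/-- EMB: regularisation.  `W = V × (J → Bool)`, `J = P × Fin t`, `P` = finite set of all colours in lists of
edges of `E`.  Real edges `(u,x)(v,x)`, `uv ∈ E`, list `L uv`.  Dummy edges `(v,x)(v,x')`, `x'` = `x` with
coordinate `(c,i)` flipped, for the `(c,i)` with `T v c` nonempty and `#(T v c) + i < t`, list `{c}`.
`ι v = (v, 0)`, `R` = real edges.  Number of edges at `(v,x)` with colour `c`: `#(T v c) + (t - #(T v c)) = t`.
Degree: at most `D` real edges, at most `(D l) t` dummies. -/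
def ST_EMB : Prop :=
  ∀ (V : Type) [Fintype V] (E : Finset (Sym2 V)) (L : Sym2 V → Finset ℕ) (l t D : ℕ),
    St E L l t D → ∃ (W : Type) (_ : Fintype W) (ι : V → W) (E₁ R : Finset (Sym2 W))
      (L₁ : Sym2 W → Finset ℕ), Function.Injective ι ∧ Reg E₁ L₁ l t (D + D * l * t) ∧ R ⊆ E₁ ∧
        (∀ e ∈ R, #(L₁ e) = l) ∧ ∀ e ∈ E, e.map ι ∈ R ∧ L₁ (e.map ι) = L e

/-- STEP: one step, from EMB and REG1.  `E'` = the edges `e ∈ E` whose image retains no colour; `L' e` = a
subset of size exactly `l'` of the colours of `L e` not lost at the endpoints of the image of `e`. -/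
def ST_STEP : Prop :=
  ∀ (D : ℕ), 10 ^ 6 ≤ D → ∀ (l t : ℕ) (V : Type) [Fintype V] (E : Finset (Sym2 V))
    (L : Sym2 V → Finset ℕ), St E L l t D → 1 ≤ t → t ≤ l → t ≤ D → l ≤ 2 * D →
    10 ^ 4 * Real.log D ≤ t → ∀ l' t' : ℕ, (l' : ℝ) ≤ l * KK l t ^ 2 - 1 - ss t D →
    t * KK l t * (1 - aa l t) + 1 + ss t D ≤ (t' : ℝ) →
    ∃ (E' : Finset (Sym2 V)) (L' : Sym2 V → Finset ℕ), St E' L' l' t' D ∧ (Col E' L' → Col E L)

/-- FIN: if `l ≥ 32 t` the local lemma with uniform random colours colours everything (events: two given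
adjacent edges get the same given colour, probability `1/l²`, each meets at most `8 l t` others). -/
def ST_FIN : Prop :=
  ∀ (V : Type) [Fintype V] (E : Finset (Sym2 V)) (L : Sym2 V → Finset ℕ) (l t D : ℕ),
    St E L l t D → 1 ≤ l → 32 * t ≤ l → Col E L

/-- ITER: iteration of STEP, end with FIN.  Write `g = l - t`, `K = KK l t`, `a = aa l t`.  Facts:
`1/8 ≤ a ≤ 1/4`, `K = 1 - a t / l`, so `1 - a ≤ K ≤ 1` and, exactly, `l K² - t K (1-a) = K g`.
Take `l' = ⌊l K² - 1 - s⌋₊`, `t' = ⌈t K (1-a) + 1 + s⌉₊`.  Then `g' ≥ K g - 4 - 2s`,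
`t' ≤ t K (1-a) + 2 + s`.  Let `U = 5·10⁵ (log D)²`, `e0 = 6300 √(log D) / U`.
While `33 t > g` and `g ≥ U √t`: `√t ≥ U/33`, `t' ≤ t K (1-a) (1 + e0)`, `g' ≥ K g (1 - e0)`; hence
`g'/√t' ≥ (1-e0)² g/√t`, `g'/t' ≥ (8/7)(1-e0)² g/t ≥ 1.1 g/t`, `t' ≤ t`, `l' ≤ l`.
CLAIM by induction on `n`: if `St E L l t D`, `1 ≤ t ≤ D`, `l ≤ 2D`, `g ≥ U (1 + 4 e0)^n √t` and
`1.1^n g ≥ 33 t` then `Col E L`.  (`n = 0`: FIN.  `n + 1`: if `g ≥ 33 t` FIN, else STEP.)
Start: `g ≥ 2 U √t`, `n = ⌈log (33 √D) / log 1.1⌉ ≤ 9 log D`, `(1 + 4 e0)^n ≤ exp (36 e0 log D) ≤ 2`.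
(If `E` is empty everything is trivial; `t ≥ 1` can be assumed by monotonicity in `t`, or take `t' ≥ 1`.) -/
def ST_ITER : Prop :=
  ∀ (D : ℕ), 10 ^ 6 ≤ D → ∀ (l t : ℕ) (V : Type) [Fintype V] (E : Finset (Sym2 V))
    (L : Sym2 V → Finset ℕ), St E L l t D → 1 ≤ t → t ≤ D → l ≤ 2 * D →
    (t : ℝ) + 10 ^ 6 * Real.sqrt t * Real.log D ^ 2 ≤ l → Col E L

/-! ## Final forms (conventions of `Pool.Agent.Helper15.LR`: `LC`, `dg`, `nb`) -/

open Pool.Agent.Helper15.LR

/-- BND: `ch' ≤ D + 10⁶ √D (log D)²` for maximum degree at most `D`.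
PROOF.  If `10⁶ √D (log D)² ≥ D - 1` (in particular if `2 ≤ D < 10⁶`) greedy colouring with lists of size
`≥ 2D - 1`; `D = 0`: no edges, `D = 1`: no two adjacent edges.  Otherwise ITER with `t = D`,
`l = ⌈D + 10⁶ √D (log D)²⌉ ≤ 2D`, lists truncated to exactly `l` colours. -/
def ST_BND : Prop :=
  ∀ (V : Type) [Fintype V] (F : Set (Sym2 V)) (D : ℕ) (L : Sym2 V → Finset ℕ),
    (∀ v, s(v, v) ∉ F) → (∀ v, dg F v ≤ D) →
    (∀ e ∈ F, (D : ℝ) + 10 ^ 6 * Real.sqrt D * Real.log D ^ 2 ≤ (#(L e) : ℝ)) → LC F L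

/-- BNDG: the same for simple graphs: `ch'(G) ≤ Δ + 10⁶ √Δ (log Δ)²`. -/
def ST_BNDG : Prop :=
  ∀ (V : Type) [Fintype V] [DecidableEq V] (G : SimpleGraph V) [DecidableRel G.Adj]
    (L : G.edgeSet → Finset ℕ),
    (∀ e, (G.maxDegree : ℝ) + 10 ^ 6 * Real.sqrt G.maxDegree * Real.log G.maxDegree ^ 2 ≤
      (#(L e) : ℝ)) →
    ∃ f : G.edgeSet → ℕ, (∀ e, f e ∈ L e) ∧ ∀ e e', G.lineGraph.Adj e e' → f e ≠ f e'

/-- GAPL: gap theorem without `n`.  Copy of `Pool.Agent.Helper78.LP.FING` with the error term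
`10⁶ √Δ (log Δ)²` in place of `C (log n)^5` (its lemma `FING_gap` uses the bound only for degrees at most
`Δ`; ST_BND is monotone in `D`). -/
def ST_GAPL : Prop :=
  ∀ (V : Type) [Fintype V] [DecidableEq V] (G : SimpleGraph V) [DecidableRel G.Adj] (h : ℕ),
    2 * h ≤ G.maxDegree →
    (∀ v, #((G.neighborFinset v).filter (fun u => (G.maxDegree : ℝ) - 2 * h -
      10 ^ 6 * Real.sqrt G.maxDegree * Real.log G.maxDegree ^ 2 < (G.degree u : ℝ))) ≤ h) →
    ∀ k : ℕ, (G.lineGraph.Colorable k ↔ ∀ L : G.edgeSet → Finset ℕ, (∀ e, k ≤ #(L e)) →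
        ∃ f : G.edgeSet → ℕ, (∀ e, f e ∈ L e) ∧
          ∀ e e', G.lineGraph.Adj e e' → f e ≠ f e') ∧
      (G.lineGraph.Colorable k ↔ G.maxDegree ≤ k)

end

end Pool.Agent.Helper46.NB
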