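import Pool.Agent.Helper46.NB.C2
import Pool.Agent.Helper17.NB.P4
import Pool.Agent.Helper19.NB.E2
import Pool.Agent.Helper19.NB.FIN
import Pool.Agent.Helper19.NB.GAPL
import Pool.Agent.Helper28.NB.MG
import Pool.Agent.Helper34.NB.BNDG
import Pool.Agent.Helper34.NB.PE
import Pool.Agent.Helper45.NB.P3
import Pool.Agent.Helper49.NB.ITER
import Pool.Agent.Helper56.NB.EMB
import Pool.Agent.Helper58.NB.C1
import Pool.Agent.Helper6.NB.P1
import Pool.Agent.Helper6.NB.STEP
import Pool.Agent.Helper79.NB.REG1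
import Pool.Agent.Helper8.NB.BND

/-!
Project NB: assembly.  `ch'(G) ≤ Δ + 10⁶ √Δ (log Δ)²` for every graph.
-/

set_option autoImplicit false

namespace Pool.Agent.Helper46.NB

theorem all_MG : ST_MG := Pool.Agent.Helper28.NB.st_MG
theorem all_PROD : ST_PROD := Pool.Agent.Helper34.NB.st_PROD
theorem all_PICK : ST_PICK := Pool.Agent.Helper34.NB.st_PICK
theorem all_P1 : ST_P1 := Pool.Agent.Helper6.NB.st_P1 all_PROD
theorem all_P2 : ST_P2 := Pool.Agent.Helper34.NB.st_P2 all_P1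
theorem all_P3 : ST_P3 := Pool.Agent.Helper45.NB.st_P3 all_PROD
theorem all_P4 : ST_P4 := Pool.Agent.Helper17.NB.st_P4 all_PROD
theorem all_E1 : ST_E1 := Pool.Agent.Helper34.NB.st_E1 all_P2 all_P3
theorem all_E2 : ST_E2 := Pool.Agent.Helper19.NB.st_E2 all_P1 all_P2 all_P4
theorem all_C1 : ST_C1 := Pool.Agent.Helper58.NB.st_C1 all_MG
theorem all_C2 : ST_C2 := st_C2 all_MG
theorem all_REG1 : ST_REG1 := Pool.Agent.Helper79.NB.st_REG1 all_E1 all_E2 all_C1 all_C2 all_PICK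
theorem all_EMB : ST_EMB := Pool.Agent.Helper56.NB.st_EMB
theorem all_STEP : ST_STEP := Pool.Agent.Helper6.NB.st_STEP all_EMB all_REG1
theorem all_FIN : ST_FIN := Pool.Agent.Helper19.NB.st_FIN all_PROD
theorem all_ITER : ST_ITER := Pool.Agent.Helper49.NB.st_ITER all_STEP all_FIN
theorem all_BND : ST_BND := Pool.Agent.Helper8.NB.st_BND all_ITER
theorem all_BNDG : ST_BNDG := Pool.Agent.Helper34.NB.st_BNDG all_BND
theorem all_GAPL : ST_GAPL := Pool.Agent.Helper19.NB.st_GAPL all_BND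

end Pool.Agent.Helper46.NB
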