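import Pool.Agent.Helper46.NB.Stmts

set_option autoImplicit false

namespace Pool.Agent.Helper46.NB

open Finset
open scoped Classical

section

variable {V : Type} {N : ℕ} {E : Finset (Sym2 V)} {L : Sym2 V → Finset ℕ}
  {pick : Sym2 V → Fin N → Option ℕ}

/-- agreement off `i` -/
def Off (i : Sym2 V) (ω ω' : Sym2 V → Fin N) : Prop := ∀ j, j ≠ i → ω j = ω' j

theorem Off.symm {i : Sym2 V} {ω ω' : Sym2 V → Fin N} (h : Off i ω ω') : Off i ω' ω :=
  fun j hj => (h j hj).symm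

theorem off_update (i : Sym2 V) (ω : Sym2 V → Fin N) (a : Fin N) :
    Off i ω (Function.update ω i a) := by
  intro j hj
  rw [Function.update_of_ne hj]

theorem pk_off {i : Sym2 V} {ω ω' : Sym2 V → Fin N} (h : Off i ω ω') {e : Sym2 V} (he : e ≠ i)
    {c : ℕ} : Pk pick ω e c ↔ Pk pick ω' e c := by
  unfold Pk
  rw [h e he]

theorem ret_off {i : Sym2 V} {ω ω' : Sym2 V → Fin N} (h : Off i ω ω') {e : Sym2 V} (he : e ≠ i)
    {c : ℕ} (hi : Adj e i → i ∈ E → ¬ Pk pick ω' i c) (hr : Ret E pick ω e c) :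
    Ret E pick ω' e c := by
  refine ⟨hr.1, (pk_off h he).1 hr.2.1, ?_⟩
  intro e' he' ha hp
  by_cases hei : e' = i
  · subst hei
    exact hi ha he' hp
  · exact hr.2.2 e' he' ha ((pk_off h hei).2 hp)

theorem pk_uniq {ω : Sym2 V → Fin N} {e : Sym2 V} {c c' : ℕ} (h : Pk pick ω e c)
    (h' : Pk pick ω e c') : c = c' := by
  unfold Pk at h h'
  rw [h] at h'
  exact Option.some.inj h'

theorem adj_comm {e e' : Sym2 V} (h : Adj e e') : Adj e' e :=
  ⟨h.1.symm, h.2.imp fun _ hx => ⟨hx.2, hx.1⟩⟩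

theorem mem_T {v : V} {c : ℕ} {e : Sym2 V} : e ∈ T E L v c ↔ e ∈ E ∧ v ∈ e ∧ c ∈ L e := by
  unfold T
  rw [mem_filter]

/-- two different edges with a common vertex, both picking `c` in `ω'`: the first does not retain `c`
in `ω`, if both are different from the changed edge -/
theorem ret_ret_off {i : Sym2 V} {ω ω' : Sym2 V → Fin N} (h : Off i ω ω') {e e' : Sym2 V} {c : ℕ}
    (he' : e' ≠ i) (ha : Adj e e')
    (h1 : Ret E pick ω e c) (h2 : e' ∈ E ∧ Pk pick ω' e' c) : False :=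
  h1.2.2 e' h2.1 ha ((pk_off h he').2 h2.2)

end

section

variable {V : Type} [Fintype V] {N : ℕ} {E R : Finset (Sym2 V)} {L : Sym2 V → Finset ℕ}
  {pick : Sym2 V → Fin N → Option ℕ} {v : V} {c : ℕ}

/-- the property counted by `YY` -/
def PP (E R : Finset (Sym2 V)) (pick : Sym2 V → Fin N → Option ℕ) (v : V) (c : ℕ)
    (ω : Sym2 V → Fin N) (f : Sym2 V) : Prop :=
  f ∈ R ∧ (∀ c', ¬ Ret E pick ω f c') ∧ ∀ w ∈ f, w ≠ v → ¬ Lost E pick ω w c

theorem YY_eq (ω : Sym2 V → Fin N) :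
    YY E R L pick v c ω = (#((T E L v c).filter (PP E R pick v c ω)) : ℝ) := by
  unfold YY PP
  congr 2
  ext f
  simp only [mem_filter]

theorem card_opt_le (i : Sym2 V) (ω ω' : Sym2 V → Fin N) (h : Off i ω ω') (o : Option ℕ) :
    #((T E L v c).filter fun f => f ≠ i ∧ ∃ c', o = some c' ∧
      (Ret E pick ω f c' ∨ Ret E pick ω' f c')) ≤ 1 := by
  rw [card_le_one]
  intro f hf f' hf'
  rw [mem_filter, mem_T] at hf hf'
  obtain ⟨⟨hE, hv, -⟩, hi, c1, ho, hr⟩ := hf
  obtain ⟨⟨hE', hv', -⟩, hi', c2, ho', hr'⟩ := hf'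
  have hcc : c1 = c2 := by rw [ho] at ho'; exact Option.some.inj ho'
  subst hcc
  by_contra hne
  have ha : Adj f f' := ⟨hne, v, hv, hv'⟩
  have hp' : Pk pick ω f' c1 ∧ Pk pick ω' f' c1 := by
    rcases hr' with hr' | hr'
    · exact ⟨hr'.2.1, (pk_off h hi').1 hr'.2.1⟩
    · exact ⟨(pk_off h hi').2 hr'.2.1, hr'.2.1⟩
  rcases hr with hr | hr
  · exact hr.2.2 f' hE' ha hp'.1
  · exact hr.2.2 f' hE' ha hp'.2

theorem card_nb_le (i : Sym2 V) (ω ω' : Sym2 V → Fin N) (h : Off i ω ω') (z : V) :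
    #(univ.filter fun w => w ≠ z ∧ s(z, w) ≠ i ∧
      (Ret E pick ω s(z, w) c ∨ Ret E pick ω' s(z, w) c)) ≤ 1 := by
  rw [card_le_one]
  intro w hw w' hw'
  rw [mem_filter] at hw hw'
  obtain ⟨-, hz, hi, hr⟩ := hw
  obtain ⟨-, hz', hi', hr'⟩ := hw'
  by_contra hne
  have hne' : s(z, w) ≠ s(z, w') := by
    intro hh
    rw [Sym2.eq_iff] at hh
    rcases hh with hh | hh
    · exact hne hh.2
    · exact hz hh.2
  have ha : Adj s(z, w) s(z, w') := ⟨hne', z, Sym2.mem_mk_left _ _, Sym2.mem_mk_left _ _⟩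
  have hE' : s(z, w') ∈ E := by
    rcases hr' with hr' | hr'
    · exact hr'.1
    · exact hr'.1
  have hp' : Pk pick ω s(z, w') c ∧ Pk pick ω' s(z, w') c := by
    rcases hr' with hr' | hr'
    · exact ⟨hr'.2.1, (pk_off h hi').1 hr'.2.1⟩
    · exact ⟨(pk_off h hi').2 hr'.2.1, hr'.2.1⟩
  rcases hr with hr | hr
  · exact hr.2.2 _ hE' ha hp'.1
  · exact hr.2.2 _ hE' ha hp'.2

/-- the vertices where the status of `c` changes -/
theorem card_lost_le (i : Sym2 V) (ω ω' : Sym2 V → Fin N) (h : Off i ω ω') :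
    #(univ.filter fun w => ¬ (Lost E pick ω w c ↔ Lost E pick ω' w c)) ≤ 4 := by
  induction i using Sym2.ind with
  | _ x y =>
    have key : ∀ (ω ω' : Sym2 V → Fin N), Off s(x, y) ω ω' → ∀ w, Lost E pick ω w c →
        ¬ Lost E pick ω' w c → w = x ∨ w = y ∨ (w ≠ x ∧ s(x, w) ≠ s(x, y) ∧
          Ret E pick ω s(x, w) c) ∨ (w ≠ y ∧ s(y, w) ≠ s(x, y) ∧ Ret E pick ω s(y, w) c) := by
      intro ω ω' h w ⟨e, hwe, hr⟩ hn
      by_cases hei : e = s(x, y)
      · subst hei
        rw [Sym2.mem_iff] at hwe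
        rcases hwe with h | h
        · exact Or.inl h
        · exact Or.inr (Or.inl h)
      have hA : Adj e s(x, y) := by
        by_contra hA
        exact hn ⟨e, hwe, ret_off h hei (fun hA' => absurd hA' hA) hr⟩
      obtain ⟨z, hz, hz'⟩ := hA.2
      rw [Sym2.mem_iff] at hz'
      by_cases hwx : w = x
      · exact Or.inl hwx
      by_cases hwy : w = y
      · exact Or.inr (Or.inl hwy)
      rcases hz' with rfl | rfl
      · have he : e = s(z, w) := ((Sym2.mem_and_mem_iff (fun hh => hwx hh.symm)).1 ⟨hz, hwe⟩)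
        subst he
        exact Or.inr (Or.inr (Or.inl ⟨hwx, hei, hr⟩))
      · have he : e = s(z, w) := ((Sym2.mem_and_mem_iff (fun hh => hwy hh.symm)).1 ⟨hz, hwe⟩)
        subst he
        exact Or.inr (Or.inr (Or.inr ⟨hwy, hei, hr⟩))
    have hsub : (univ.filter fun w => ¬ (Lost E pick ω w c ↔ Lost E pick ω' w c)) ⊆
        (({x} : Finset V) ∪ {y}) ∪ ((univ.filter fun w => w ≠ x ∧ s(x, w) ≠ s(x, y) ∧
          (Ret E pick ω s(x, w) c ∨ Ret E pick ω' s(x, w) c)) ∪
        (univ.filter fun w => w ≠ y ∧ s(y, w) ≠ s(x, y) ∧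
          (Ret E pick ω s(y, w) c ∨ Ret E pick ω' s(y, w) c))) := by
      intro w hw
      rw [mem_filter] at hw
      rw [mem_union, mem_union, mem_union, mem_filter, mem_filter, mem_singleton, mem_singleton]
      by_cases h1 : Lost E pick ω w c
      · have h2 : ¬ Lost E pick ω' w c := fun h2 => hw.2 ⟨fun _ => h2, fun _ => h1⟩
        rcases key ω ω' h w h1 h2 with h | h | h | h
        · exact Or.inl (Or.inl h)
        · exact Or.inl (Or.inr h)
        · exact Or.inr (Or.inl ⟨mem_univ _, h.1, h.2.1, Or.inl h.2.2⟩)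
        · exact Or.inr (Or.inr ⟨mem_univ _, h.1, h.2.1, Or.inl h.2.2⟩)
      · have h2 : Lost E pick ω' w c := by
          by_contra h2
          exact hw.2 ⟨fun h => absurd h h1, fun h => absurd h h2⟩
        rcases key ω' ω h.symm w h2 h1 with h | h | h | h
        · exact Or.inl (Or.inl h)
        · exact Or.inl (Or.inr h)
        · exact Or.inr (Or.inl ⟨mem_univ _, h.1, h.2.1, Or.inr h.2.2⟩)
        · exact Or.inr (Or.inr ⟨mem_univ _, h.1, h.2.1, Or.inr h.2.2⟩)
    refine (card_le_card hsub).trans ?_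
    refine (card_union_le _ _).trans ?_
    have e1 := card_union_le ({x} : Finset V) {y}
    have e2 := card_union_le (univ.filter fun w => w ≠ x ∧ s(x, w) ≠ s(x, y) ∧
          (Ret E pick ω s(x, w) c ∨ Ret E pick ω' s(x, w) c))
        (univ.filter fun w => w ≠ y ∧ s(y, w) ≠ s(x, y) ∧
          (Ret E pick ω s(y, w) c ∨ Ret E pick ω' s(y, w) c))
    have e3 := card_nb_le (E := E) (pick := pick) (c := c) s(x, y) ω ω' h x
    have e4 := card_nb_le (E := E) (pick := pick) (c := c) s(x, y) ω ω' h y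
    rw [card_singleton, card_singleton] at e1
    omega

theorem YY_eff (i : Sym2 V) (ω ω' : Sym2 V → Fin N) (h : Off i ω ω') :
    |YY E R L pick v c ω' - YY E R L pick v c ω| ≤ 8 := by
  rw [YY_eq, YY_eq]
  set F := T E L v c with hF
  set B := F.filter fun f => ¬ (PP E R pick v c ω f ↔ PP E R pick v c ω' f) with hB
  have h1 : ∀ ω ω' : Sym2 V → Fin N, F.filter (PP E R pick v c ω') ⊆
      F.filter (PP E R pick v c ω) ∪
        F.filter fun f => ¬ (PP E R pick v c ω f ↔ PP E R pick v c ω' f) := by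
    intro ω ω' f hf
    rw [mem_filter] at hf
    rw [mem_union, mem_filter, mem_filter]
    by_cases hP : PP E R pick v c ω f
    · exact Or.inl ⟨hf.1, hP⟩
    · exact Or.inr ⟨hf.1, fun hh => hP (hh.2 hf.2)⟩
  have hB8 : #B ≤ 8 := by
    have hsub : B ⊆ (({i} : Finset (Sym2 V)) ∪
        ((F.filter fun f => f ≠ i ∧ ∃ c', pick i (ω i) = some c' ∧
          (Ret E pick ω f c' ∨ Ret E pick ω' f c')) ∪
        (F.filter fun f => f ≠ i ∧ ∃ c', pick i (ω' i) = some c' ∧
          (Ret E pick ω f c' ∨ Ret E pick ω' f c')))) ∪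
        (univ.filter fun w => ¬ (Lost E pick ω w c ↔ Lost E pick ω' w c)).image
          (fun w => s(v, w)) := by
      intro f hf
      rw [hB, mem_filter] at hf
      obtain ⟨hfF, hne⟩ := hf
      have hvf : v ∈ f := (mem_T.1 hfF).2.1
      by_cases hL : ∃ w ∈ f, w ≠ v ∧ ¬ (Lost E pick ω w c ↔ Lost E pick ω' w c)
      · obtain ⟨w, hw, hwv, hl⟩ := hL
        apply mem_union_right
        rw [mem_image]
        refine ⟨w, mem_filter.2 ⟨mem_univ _, hl⟩, ?_⟩
        exact ((Sym2.mem_and_mem_iff (fun hh => hwv hh.symm)).1 ⟨hvf, hw⟩).symm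
      · apply mem_union_left
        push Not at hL
        by_cases hfi : f = i
        · exact mem_union_left _ (mem_singleton.2 hfi)
        apply mem_union_right
        rw [mem_union, mem_filter, mem_filter]
        have hR : ∃ c', ¬ (Ret E pick ω f c' ↔ Ret E pick ω' f c') := by
          by_contra hR
          push Not at hR
          apply hne
          unfold PP
          refine and_congr Iff.rfl (and_congr ?_ ?_)
          · exact forall_congr' fun c' => not_congr (hR c')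
          · exact forall_congr' fun w => forall_congr' fun hw => forall_congr' fun hwv =>
              not_congr (hL w hw hwv)
        obtain ⟨c', hc'⟩ := hR
        by_cases h1 : Ret E pick ω f c'
        · have h2 : ¬ Ret E pick ω' f c' := fun h2 => hc' ⟨fun _ => h2, fun _ => h1⟩
          right
          refine ⟨hfF, hfi, c', ?_, Or.inl h1⟩
          by_contra hp
          exact h2 (ret_off h hfi (fun _ _ => hp) h1)
        · have h2 : Ret E pick ω' f c' := by
            by_contra h2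
            exact hc' ⟨fun h => absurd h h1, fun h => absurd h h2⟩
          left
          refine ⟨hfF, hfi, c', ?_, Or.inr h2⟩
          by_contra hp
          exact h1 (ret_off h.symm hfi (fun _ _ => hp) h2)
    have e0 := card_le_card hsub
    have e1 := card_union_le (({i} : Finset (Sym2 V)) ∪
        ((F.filter fun f => f ≠ i ∧ ∃ c', pick i (ω i) = some c' ∧
          (Ret E pick ω f c' ∨ Ret E pick ω' f c')) ∪
        (F.filter fun f => f ≠ i ∧ ∃ c', pick i (ω' i) = some c' ∧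
          (Ret E pick ω f c' ∨ Ret E pick ω' f c'))))
        ((univ.filter fun w => ¬ (Lost E pick ω w c ↔ Lost E pick ω' w c)).image
          (fun w => s(v, w)))
    have e2 := card_union_le ({i} : Finset (Sym2 V))
        ((F.filter fun f => f ≠ i ∧ ∃ c', pick i (ω i) = some c' ∧
          (Ret E pick ω f c' ∨ Ret E pick ω' f c')) ∪
        (F.filter fun f => f ≠ i ∧ ∃ c', pick i (ω' i) = some c' ∧
          (Ret E pick ω f c' ∨ Ret E pick ω' f c')))
    have e3 := card_union_le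
        (F.filter fun f => f ≠ i ∧ ∃ c', pick i (ω i) = some c' ∧
          (Ret E pick ω f c' ∨ Ret E pick ω' f c'))
        (F.filter fun f => f ≠ i ∧ ∃ c', pick i (ω' i) = some c' ∧
          (Ret E pick ω f c' ∨ Ret E pick ω' f c'))
    have e4 := card_opt_le (E := E) (L := L) (pick := pick) (v := v) (c := c) i ω ω' h
      (pick i (ω i))
    have e5 := card_opt_le (E := E) (L := L) (pick := pick) (v := v) (c := c) i ω ω' h
      (pick i (ω' i))
    have e6 := (card_image_le (s := univ.filter fun w =>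
      ¬ (Lost E pick ω w c ↔ Lost E pick ω' w c)) (f := fun w => s(v, w))).trans
      (card_lost_le (E := E) (pick := pick) (c := c) i ω ω' h)
    rw [card_singleton] at e2
    rw [← hF] at e4 e5
    omega
  have a1 := (card_le_card (h1 ω ω')).trans (card_union_le _ _)
  have a2 := (card_le_card (h1 ω' ω)).trans (card_union_le _ _)
  have a3 : (F.filter fun f => ¬ (PP E R pick v c ω' f ↔ PP E R pick v c ω f)) = B := by
    rw [hB]
    apply filter_congr
    intro f _
    exact not_congr iff_comm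
  rw [a3] at a2
  rw [← hB] at a1
  have a1' : (#(F.filter (PP E R pick v c ω')) : ℝ) ≤ #(F.filter (PP E R pick v c ω)) + 8 := by
    have : #(F.filter (PP E R pick v c ω')) ≤ #(F.filter (PP E R pick v c ω)) + 8 := by omega
    exact_mod_cast this
  have a2' : (#(F.filter (PP E R pick v c ω)) : ℝ) ≤ #(F.filter (PP E R pick v c ω')) + 8 := by
    have : #(F.filter (PP E R pick v c ω)) ≤ #(F.filter (PP E R pick v c ω')) + 8 := by omega
    exact_mod_cast this
  rw [abs_le]
  constructor <;> linarith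

end

section

variable {V : Type} [Fintype V] {N : ℕ} {E R : Finset (Sym2 V)} {L : Sym2 V → Finset ℕ}
  {pick : Sym2 V → Fin N → Option ℕ} {v : V} {c : ℕ}

/-- relevant colours -/
def Rel (E : Finset (Sym2 V)) (L : Sym2 V → Finset ℕ) (pick : Sym2 V → Fin N → Option ℕ) (v : V)
    (c : ℕ) (ω : Sym2 V → Fin N) (i : Sym2 V) (c' : ℕ) : Prop :=
  i ∈ T E L v c ∨
  (i ∉ T E L v c ∧ v ∈ i ∧ ∃ f ∈ T E L v c, Pk pick ω f c') ∨
  (v ∉ i ∧ ∃ w ∈ i, s(v, w) ∈ T E L v c ∧ (c' = c ∨ Pk pick ω s(v, w) c')) ∨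
  (v ∉ i ∧ (∀ w ∈ i, s(v, w) ∉ T E L v c) ∧ c' = c ∧ ∃ w, s(v, w) ∈ T E L v c ∧ ∃ g ∈ E, w ∈ g ∧
    Pk pick ω g c ∧ (∀ g' ∈ E, w ∈ g' → Pk pick ω g' c → g' = g) ∧ ∃ x ∈ g, x ∈ i)

/-- relevant values -/
noncomputable def Rv (E : Finset (Sym2 V)) (L : Sym2 V → Finset ℕ)
    (pick : Sym2 V → Fin N → Option ℕ) (v : V) (c : ℕ) (i : Sym2 V) (ω : Sym2 V → Fin N) :
    Finset (Fin N) :=
  univ.filter fun a => i ∈ E ∧ ∃ c', pick i a = some c' ∧ Rel E L pick v c ω i c'

/-- ranks -/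
noncomputable def rk (E : Finset (Sym2 V)) (L : Sym2 V → Finset ℕ) (v : V) (c : ℕ)
    (i : Sym2 V) : ℕ :=
  if i ∈ T E L v c then 0 else if v ∈ i then 1 else if ∃ w ∈ i, s(v, w) ∈ T E L v c then 2 else 3

theorem rk_T {i : Sym2 V} (h : i ∈ T E L v c) : rk E L v c i = 0 := by
  unfold rk; rw [if_pos h]

theorem rk_nb {g : Sym2 V} {w : V} (h : s(v, w) ∈ T E L v c) (hw : w ∈ g) :
    rk E L v c g ≤ 2 := by
  unfold rk
  split_ifs with h1 h2 h3
  · omega
  · omega
  · omega
  · exact absurd ⟨w, hw, h⟩ h3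

theorem Rv_pred (i : Sym2 V) (ω ω' : Sym2 V → Fin N)
    (h : ∀ j, rk E L v c j < rk E L v c i → ω j = ω' j) :
    Rv E L pick v c i ω = Rv E L pick v c i ω' := by
  unfold Rv
  apply filter_congr
  intro a _
  apply and_congr_right; intro hiE
  apply exists_congr; intro c'
  apply and_congr_right; intro _
  unfold Rel
  by_cases h0 : i ∈ T E L v c
  · simp only [h0, true_or]
  have hpT : 0 < rk E L v c i → ∀ f ∈ T E L v c, ∀ c', Pk pick ω f c' ↔ Pk pick ω' f c' := by
    intro hpos f hf c'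
    unfold Pk
    rw [h f (by rw [rk_T hf]; exact hpos)]
  by_cases h1 : v ∈ i
  · have hr : rk E L v c i = 1 := by unfold rk; rw [if_neg h0, if_pos h1]
    have hp := hpT (by omega)
    simp only [h0, h1, false_or, not_false_eq_true, true_and, not_true_eq_false, false_and,
      or_false]
    exact ⟨fun ⟨f, hf, hk⟩ => ⟨f, hf, (hp f hf c').1 hk⟩,
      fun ⟨f, hf, hk⟩ => ⟨f, hf, (hp f hf c').2 hk⟩⟩
  by_cases h2 : ∃ w ∈ i, s(v, w) ∈ T E L v c
  · have hr : rk E L v c i = 2 := by unfold rk; rw [if_neg h0, if_neg h1, if_pos h2]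
    have hp := hpT (by omega)
    have h2' : ¬ (∀ w ∈ i, s(v, w) ∉ T E L v c) := by push Not; exact h2
    simp only [h0, h1, h2', false_or, not_false_eq_true, true_and, false_and,
      or_false, and_false]
    apply exists_congr; intro w
    apply and_congr_right; intro _
    apply and_congr_right; intro hw
    rw [hp _ hw c']
  · have hr : rk E L v c i = 3 := by unfold rk; rw [if_neg h0, if_neg h1, if_neg h2]
    have h2' : ∀ w ∈ i, s(v, w) ∉ T E L v c := by push Not at h2; exact h2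
    have hp := hpT (by omega)
    have hq : ∀ w, s(v, w) ∈ T E L v c → ∀ g, w ∈ g → ∀ c', (Pk pick ω g c' ↔ Pk pick ω' g c') := by
      intro w hw g hg c'
      unfold Pk
      rw [h g (by rw [hr]; have := rk_nb hw hg; omega)]
    have h3 : ¬ ∃ w ∈ i, s(v, w) ∈ T E L v c ∧ (c' = c ∨ Pk pick ω s(v, w) c') := by
      rintro ⟨w, hw, hw', -⟩
      exact h2' w hw hw'
    have h3' : ¬ ∃ w ∈ i, s(v, w) ∈ T E L v c ∧ (c' = c ∨ Pk pick ω' s(v, w) c') := by
      rintro ⟨w, hw, hw', -⟩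
      exact h2' w hw hw'
    simp only [h0, h1, h3, h3', false_or, not_false_eq_true, true_and, false_and,
      or_false, and_false]
    apply and_congr_right; intro _
    apply and_congr_right; intro _
    apply exists_congr; intro w
    apply and_congr_right; intro hw
    apply exists_congr; intro g
    apply and_congr_right; intro _
    apply and_congr_right; intro hg
    rw [hq w hw g hg c]
    apply and_congr_right; intro _
    apply and_congr_left; intro _
    constructor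
    · intro hh g' hg' hwg' hk
      exact hh g' hg' hwg' ((hq w hw g' hwg' c).2 hk)
    · intro hh g' hg' hwg' hk
      exact hh g' hg' hwg' ((hq w hw g' hwg' c).1 hk)

/-- if `i` is not changed between relevant colours nothing changes -/
theorem PP_same (hpick : IsPick E L N pick) (i : Sym2 V)
    (ω ω' : Sym2 V → Fin N) (h : Off i ω ω')
    (h1 : ω i ∉ Rv E L pick v c i ω) (h2 : ω' i ∉ Rv E L pick v c i ω)
    (f : Sym2 V) (hf : f ∈ T E L v c) : PP E R pick v c ω f → PP E R pick v c ω' f := by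
  have hv : v ∈ f := (mem_T.1 hf).2.1
  have memR : ∀ a c', i ∈ E → pick i a = some c' → Rel E L pick v c ω i c' →
      a ∈ Rv E L pick v c i ω := by
    intro a c' hi hp hr
    unfold Rv
    rw [mem_filter]
    exact ⟨mem_univ _, hi, c', hp, hr⟩
  rintro ⟨hR, hu, hl⟩
  refine ⟨hR, ?_, ?_⟩
  · -- uncoloured
    intro c' hr
    by_cases hfi : f = i
    · subst hfi
      exact h2 (memR _ c' hr.1 hr.2.1 (Or.inl hf))
    refine hu c' (ret_off h.symm hfi ?_ hr)
    intro ha hi hp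
    refine h1 (memR _ c' hi hp ?_)
    have hfp : Pk pick ω f c' := (pk_off h hfi).2 hr.2.1
    by_cases h0 : i ∈ T E L v c
    · exact Or.inl h0
    by_cases hvi : v ∈ i
    · exact Or.inr (Or.inl ⟨h0, hvi, f, hf, hfp⟩)
    · obtain ⟨z, hz, hzi⟩ := ha.2
      have hzv : v ≠ z := by rintro rfl; exact hvi hzi
      have he : f = s(v, z) := (Sym2.mem_and_mem_iff hzv).1 ⟨hv, hz⟩
      exact Or.inr (Or.inr (Or.inl ⟨hvi, z, hzi, he ▸ hf, Or.inr (he ▸ hfp)⟩))
  · -- not lost
    intro w hw hwv hlost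
    have he : f = s(v, w) := (Sym2.mem_and_mem_iff (fun hh => hwv hh.symm)).1 ⟨hv, hw⟩
    have hF : s(v, w) ∈ T E L v c := he ▸ hf
    apply hl w hw hwv
    obtain ⟨e, hwe, hr⟩ := hlost
    by_cases hei : e = i
    · exfalso
      subst hei
      refine h2 (memR _ c hr.1 hr.2.1 ?_)
      by_cases hvi : v ∈ e
      · exact Or.inl (mem_T.2 ⟨hr.1, hvi, (hpick e hr.1).2 _ _ hr.2.1⟩)
      · exact Or.inr (Or.inr (Or.inl ⟨hvi, w, hwe, hF, Or.inl rfl⟩))
    refine ⟨e, hwe, ret_off h.symm hei ?_ hr⟩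
    intro ha hi hp
    refine h1 (memR _ c hi hp ?_)
    by_cases hvi : v ∈ i
    · exact Or.inl (mem_T.2 ⟨hi, hvi, (hpick i hi).2 _ _ hp⟩)
    by_cases hnb : ∃ w' ∈ i, s(v, w') ∈ T E L v c
    · obtain ⟨w', hw', hw''⟩ := hnb
      exact Or.inr (Or.inr (Or.inl ⟨hvi, w', hw', hw'', Or.inl rfl⟩))
    push Not at hnb
    refine Or.inr (Or.inr (Or.inr ⟨hvi, hnb, rfl, w, hF, e, hr.1, hwe, (pk_off h hei).2 hr.2.1,
      ?_, ?_⟩))
    · intro g' hg' hwg' hk
      by_contra hne
      have hgi : g' ≠ i := by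
        rintro rfl
        exact hnb w hwg' hF
      exact hr.2.2 g' hg' ⟨fun hh => hne hh.symm, w, hwe, hwg'⟩ ((pk_off h hgi).1 hk)
    · obtain ⟨x, hx, hx'⟩ := ha.2
      exact ⟨x, hx, hx'⟩

theorem YY_same (hpick : IsPick E L N pick) (i : Sym2 V)
    (ω ω' : Sym2 V → Fin N) (h : Off i ω ω')
    (h1 : ω i ∉ Rv E L pick v c i ω) (h2 : ω' i ∉ Rv E L pick v c i ω) :
    YY E R L pick v c ω' = YY E R L pick v c ω := by
  have hR : Rv E L pick v c i ω = Rv E L pick v c i ω' := by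
    apply Rv_pred
    intro j hj
    apply h
    rintro rfl
    exact lt_irrefl _ hj
  rw [YY_eq, YY_eq]
  congr 2
  apply filter_congr
  intro f hf
  constructor
  · refine PP_same hpick i _ _ h.symm ?_ ?_ f hf
    · rw [← hR]; exact h2
    · rw [← hR]; exact h1
  · exact PP_same hpick i _ _ h h1 h2 f hf

theorem T_le {l t D : ℕ} (hR : Reg E L l t D) (u : V) (c' : ℕ) : #(T E L u c') ≤ t := by
  rcases hR.col u c' with h | h
  · rw [h]; simp
  · exact h.le

theorem fin_pick {l t D : ℕ} (hR : Reg E L l t D) (ω : Sym2 V → Fin N) (u : V) (f : Sym2 V) :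
    ∃ Z : Finset (Sym2 V × ℕ), #Z ≤ t ∧ ∀ i ∈ E, ∀ c' ∈ L i, u ∈ i → Pk pick ω f c' →
      (i, c') ∈ Z := by
  by_cases hp : ∃ p, Pk pick ω f p
  · obtain ⟨p, hp⟩ := hp
    refine ⟨(T E L u p).image (fun i => (i, p)), card_image_le.trans (T_le hR u p), ?_⟩
    intro i hi c' hc' hu hk
    have := pk_uniq hp hk
    subst this
    exact mem_image.2 ⟨i, mem_T.2 ⟨hi, hu, hc'⟩, rfl⟩
  · refine ⟨∅, by simp, ?_⟩
    intro i _ c' _ _ hk
    exact absurd ⟨c', hk⟩ hp

theorem fin_cause {l t D : ℕ} (hR : Reg E L l t D) (ω : Sym2 V → Fin N) (w : V) :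
    ∃ Z : Finset (Sym2 V × ℕ), #Z ≤ 4 * t ∧ ∀ i ∈ E, ∀ c' ∈ L i,
      ((v ∈ i ∧ Pk pick ω s(v, w) c') ∨ (w ∈ i ∧ (c' = c ∨ Pk pick ω s(v, w) c')) ∨
      (c' = c ∧ w ∉ i ∧ ∃ g ∈ E, w ∈ g ∧ Pk pick ω g c ∧
        (∀ g' ∈ E, w ∈ g' → Pk pick ω g' c → g' = g) ∧ ∃ x ∈ g, x ∈ i)) → (i, c') ∈ Z := by
  obtain ⟨Z1, hZ1, h1⟩ := fin_pick (pick := pick) hR ω v s(v, w)
  obtain ⟨Z3, hZ3, h3⟩ := fin_pick (pick := pick) hR ω w s(v, w)
  have h4 : ∃ Z : Finset (Sym2 V × ℕ), #Z ≤ t ∧ ∀ i ∈ E, ∀ c' ∈ L i, c' = c → w ∉ i →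
      (∃ g ∈ E, w ∈ g ∧ Pk pick ω g c ∧ (∀ g' ∈ E, w ∈ g' → Pk pick ω g' c → g' = g) ∧
        ∃ x ∈ g, x ∈ i) → (i, c') ∈ Z := by
    by_cases hx : ∃ x, x ≠ w ∧ ∃ g ∈ E, w ∈ g ∧ x ∈ g ∧ Pk pick ω g c ∧
        (∀ g' ∈ E, w ∈ g' → Pk pick ω g' c → g' = g)
    · obtain ⟨x, hxw, g, hg, hwg, hxg, hk, hun⟩ := hx
      refine ⟨(T E L x c).image (fun i => (i, c)), card_image_le.trans (T_le hR x c), ?_⟩
      rintro i hi c' hc' rfl hwi ⟨g', hg', hwg', hk', -, x', hx', hxi⟩
      have he : g' = g := hun g' hg' hwg' hk'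
      subst he
      have hgx : g' = s(w, x) := (Sym2.mem_and_mem_iff (Ne.symm hxw)).1 ⟨hwg, hxg⟩
      have hx'x : x' = x := by
        rw [hgx, Sym2.mem_iff] at hx'
        rcases hx' with h | h
        · subst h; exact absurd hxi hwi
        · exact h
      subst hx'x
      exact mem_image.2 ⟨i, mem_T.2 ⟨hi, hxi, hc'⟩, rfl⟩
    · refine ⟨∅, by simp, ?_⟩
      rintro i hi c' hc' rfl hwi ⟨g', hg', hwg', hk', hun, x', hx', hxi⟩
      exact absurd ⟨x', fun hh => hwi (hh ▸ hxi), g', hg', hwg', hx', hk', hun⟩ hx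
  obtain ⟨Z4, hZ4, h4⟩ := h4
  refine ⟨(Z1 ∪ (T E L w c).image (fun i => (i, c))) ∪ (Z3 ∪ Z4), ?_, ?_⟩
  · have e1 := card_union_le (Z1 ∪ (T E L w c).image (fun i => (i, c))) (Z3 ∪ Z4)
    have e2 := card_union_le Z1 ((T E L w c).image (fun i => (i, c)))
    have e3 := card_union_le Z3 Z4
    have e4 := (card_image_le (s := T E L w c) (f := fun i => (i, c))).trans (T_le hR w c)
    omega
  · intro i hi c' hc' hh
    rw [mem_union, mem_union, mem_union]
    rcases hh with ⟨ha, hb⟩ | ⟨ha, rfl | hb⟩ | ⟨ha, hb, hd⟩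
    · exact Or.inl (Or.inl (h1 i hi c' hc' ha hb))
    · exact Or.inl (Or.inr (mem_image.2 ⟨i, mem_T.2 ⟨hi, ha, hc'⟩, rfl⟩))
    · exact Or.inr (Or.inl (h3 i hi c' hc' ha hb))
    · exact Or.inr (Or.inr (h4 i hi c' hc' ha hb hd))

theorem sum_Rv {l t D : ℕ} (hR : Reg E L l t D) (htl : t ≤ l) (hpick : IsPick E L N pick)
    (ω : Sym2 V → Fin N) : ∑ i, #(Rv E L pick v c i ω) ≤ 5 * t * l := by
  choose Z hZ hZ' using fun w => fin_cause (pick := pick) (v := v) (c := c) hR ω w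
  set Wn : Finset V := univ.filter fun w => s(v, w) ∈ T E L v c with hWn
  have hWc : #Wn ≤ t := by
    refine le_trans ?_ (T_le hR v c)
    refine card_le_card_of_injOn (fun w => s(v, w)) ?_ ?_
    · intro w hw
      exact (mem_filter.1 hw).2
    · intro w _ w' _ hh
      exact Sym2.congr_right.1 hh
  set A1 : Finset (Sym2 V × ℕ) := (T E L v c).biUnion fun f => (L f).image (fun c' => (f, c'))
    with hA1
  have hA1c : #A1 ≤ t * l := by
    refine card_biUnion_le.trans ?_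
    calc ∑ f ∈ T E L v c, #((L f).image (fun c' => (f, c'))) ≤ ∑ f ∈ T E L v c, l := by
          apply sum_le_sum
          intro f hf
          exact card_image_le.trans (hR.list f (mem_T.1 hf).1)
      _ = #(T E L v c) * l := by rw [sum_const, smul_eq_mul]
      _ ≤ t * l := Nat.mul_le_mul_right _ (T_le hR v c)
  have hBc : #(Wn.biUnion Z) ≤ t * (4 * t) := by
    refine card_biUnion_le.trans ?_
    calc ∑ w ∈ Wn, #(Z w) ≤ ∑ w ∈ Wn, 4 * t := sum_le_sum fun w _ => hZ w
      _ = #Wn * (4 * t) := by rw [sum_const, smul_eq_mul]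
      _ ≤ t * (4 * t) := Nat.mul_le_mul_right _ hWc
  have hcard : ∑ i, #(Rv E L pick v c i ω) = #(univ.sigma fun i => Rv E L pick v c i ω) := by
    rw [card_sigma]
  rw [hcard]
  have hle : #(univ.sigma fun i => Rv E L pick v c i ω) ≤ #(A1 ∪ Wn.biUnion Z) := by
    refine card_le_card_of_injOn (fun q => (q.1, (pick q.1 q.2).getD 0)) ?_ ?_
    · rintro ⟨i, a⟩ hq
      have hq' : a ∈ Rv E L pick v c i ω := by
        simpa using hq
      unfold Rv at hq'
      rw [mem_filter] at hq'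
      obtain ⟨-, hi, c', hp, hrel⟩ := hq'
      have hc' : c' ∈ L i := (hpick i hi).2 _ _ hp
      show (i, (pick i a).getD 0) ∈ (↑(A1 ∪ Wn.biUnion Z) : Set (Sym2 V × ℕ))
      rw [hp, Option.getD_some, mem_coe, mem_union]
      have hcause : ∀ w, s(v, w) ∈ T E L v c → (i, c') ∈ Z w → (i, c') ∈ Wn.biUnion Z := by
        intro w hw hz
        exact mem_biUnion.2 ⟨w, mem_filter.2 ⟨mem_univ _, hw⟩, hz⟩
      rcases hrel with h | ⟨-, hv, f, hf, hk⟩ | ⟨hv, w, hw, hwF, hk⟩ | ⟨hv, hno, hcc, w, hwF, hg⟩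
      · left
        exact mem_biUnion.2 ⟨i, h, mem_image.2 ⟨c', hc', rfl⟩⟩
      · right
        have hvf : v ∈ f := (mem_T.1 hf).2.1
        obtain ⟨w, rfl⟩ := hvf
        exact hcause w hf (hZ' w i hi c' hc' (Or.inl ⟨hv, hk⟩))
      · right
        exact hcause w hwF (hZ' w i hi c' hc' (Or.inr (Or.inl ⟨hw, hk⟩)))
      · right
        refine hcause w hwF (hZ' w i hi c' hc' (Or.inr (Or.inr ⟨hcc, ?_, hg⟩)))
        intro hwi
        exact hno w hwi hwF
    · rintro ⟨i, a⟩ hq ⟨i', a'⟩ hq' hh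
      have hqq : a ∈ Rv E L pick v c i ω := by simpa using hq
      have hqq' : a' ∈ Rv E L pick v c i' ω := by simpa using hq'
      unfold Rv at hqq hqq'
      rw [mem_filter] at hqq hqq'
      obtain ⟨-, hi, c1, hp, -⟩ := hqq
      obtain ⟨-, hi', c2, hp', -⟩ := hqq'
      have hh' : (i, (pick i a).getD 0) = (i', (pick i' a').getD 0) := hh
      rw [hp, hp', Option.getD_some, Option.getD_some, Prod.mk.injEq] at hh'
      obtain ⟨rfl, rfl⟩ := hh'
      have hc1 : c1 ∈ L i := (hpick i hi).2 _ _ hp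
      have hone := (hpick i hi).1 c1 hc1
      rw [card_eq_one] at hone
      obtain ⟨a0, ha0⟩ := hone
      have m1 : a ∈ ({a0} : Finset (Fin N)) := by
        rw [← ha0, mem_filter]; exact ⟨mem_univ _, hp⟩
      have m2 : a' ∈ ({a0} : Finset (Fin N)) := by
        rw [← ha0, mem_filter]; exact ⟨mem_univ _, hp'⟩
      rw [mem_singleton] at m1 m2
      rw [m1, m2]
  refine hle.trans ((card_union_le _ _).trans ?_)
  have : t * (4 * t) ≤ 4 * t * l := by nlinarith
  nlinarith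

end

theorem off_upd {V : Type} {N : ℕ} (inst : DecidableEq (Sym2 V)) (i : Sym2 V) (ω : Sym2 V → Fin N)
    (a : Fin N) : Off i ω (@Function.update (Sym2 V) (fun _ => Fin N) inst ω i a) := by
  intro j hj
  exact (@Function.update_of_ne (Sym2 V) (fun _ => Fin N) inst j i hj a ω).symm

theorem upd_self {V : Type} {N : ℕ} (inst : DecidableEq (Sym2 V)) (i : Sym2 V)
    (ω : Sym2 V → Fin N) (a : Fin N) :
    @Function.update (Sym2 V) (fun _ => Fin N) inst ω i a i = a :=
  @Function.update_self (Sym2 V) (fun _ => Fin N) inst i a ω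

/-- Change of instances. -/
theorem fin_swap {A : Type} (I1 I2 : Fintype A) (f : A → ℝ) (s x : ℝ)
    (d1 : DecidablePred fun ω => (∑ ω' ∈ @univ A I1, f ω') / (@Fintype.card A I1 : ℝ) + s ≤ f ω)
    (d2 : DecidablePred fun ω => (∑ ω' ∈ @univ A I2, f ω') / (@Fintype.card A I2 : ℝ) + s ≤ f ω)
    (h : ((@Finset.filter A _ d1 (@univ A I1)).card : ℝ) ≤ x * (@Fintype.card A I1 : ℝ)) :
    ((@Finset.filter A _ d2 (@univ A I2)).card : ℝ) ≤ x * (@Fintype.card A I2 : ℝ) := by
  obtain rfl : I1 = I2 := Subsingleton.elim _ _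
  obtain rfl : d1 = d2 := Subsingleton.elim _ _
  exact h

theorem st_C2 (hMG : ST_MG) : ST_C2 := by
  intro V _ E R L l t D pick hl ht htl hReg hpick hRE v c s hs hs'
  have hN : 0 < 4 * l := by omega
  haveI : Nonempty (Fin (4 * l)) := ⟨⟨0, hN⟩⟩
  have htr : (0 : ℝ) < t := by exact_mod_cast ht
  have hsum : ∀ ω : Sym2 V → Fin (4 * l), ∑ i, (#(Rv E L pick v c i ω) : ℝ) ≤
      5 * t / 4 * (Fintype.card (Fin (4 * l)) : ℝ) := by
    intro ω
    have h := sum_Rv (v := v) (c := c) hReg htl hpick ω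
    have h' : ((∑ i, #(Rv E L pick v c i ω) : ℕ) : ℝ) ≤ ((5 * t * l : ℕ) : ℝ) := by
      exact_mod_cast h
    push_cast at h'
    rw [Fintype.card_fin]
    push_cast
    nlinarith
  have key := hMG (Sym2 V) (Fin (4 * l)) (YY E R L pick v c) (rk E L v c)
    (Rv E L pick v c) 8 (5 * t / 4) (by norm_num) (by positivity)
    (fun i ω ω' h => Rv_pred i ω ω' h)
    (fun i ω a => YY_eff i ω _ (off_upd _ i ω a))
    (fun i ω a h1 h2 => YY_same hpick i ω _ (off_upd _ i ω a) h1
      (by rw [upd_self]; exact h2))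
    hsum s hs (by linarith)
  have he : (4 * (8 : ℝ) ^ 2 * (5 * t / 4)) = 320 * t := by ring
  rw [he] at key
  have hcard : (0 : ℝ) < (Fintype.card (Sym2 V → Fin (4 * l)) : ℝ) := by
    exact_mod_cast Fintype.card_pos
  unfold Pr Av
  rw [div_le_iff₀ hcard]
  exact fin_swap _ _ (YY E R L pick v c) s _ _ _ key

end Pool.Agent.Helper46.NB
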