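import Mathlib

/-!
Project NB (for MP_2f9829_co): `ch'(G) ≤ Δ + C √Δ (log Δ)²` for every graph `G`
(the best published general bound is `Δ + C √Δ (log Δ)⁴`, Molloy-Reed 2000).

Definitions.  Colours are natural numbers, edges are elements of `Sym2 V`, all graphs are finite sets
`E : Finset (Sym2 V)` of edges, lists are `L : Sym2 V → Finset ℕ`.
-/

set_option autoImplicit false

namespace Pool.Agent.Helper46.NB

open Finset
open scoped Classical

noncomputable section

/-- the edges of `E` at `v` whose list contains `c` -/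
def T {V : Type} (E : Finset (Sym2 V)) (L : Sym2 V → Finset ℕ) (v : V) (c : ℕ) :
    Finset (Sym2 V) :=
  E.filter fun e => v ∈ e ∧ c ∈ L e

/-- two different edges with a common vertex -/
def Adj {V : Type} (e e' : Sym2 V) : Prop := e ≠ e' ∧ ∃ v, v ∈ e ∧ v ∈ e'

/-- `E` can be properly coloured from the lists `L` -/
def Col {V : Type} (E : Finset (Sym2 V)) (L : Sym2 V → Finset ℕ) : Prop :=
  ∃ f : Sym2 V → ℕ, (∀ e ∈ E, f e ∈ L e) ∧ ∀ e ∈ E, ∀ e' ∈ E, Adj e e' → f e ≠ f e'

/-- state of the colouring procedure: no loops, all lists have exactly `l` colours, at most `t` edges at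
`v` have `c` in their list, at most `D` edges at `v` -/
structure St {V : Type} (E : Finset (Sym2 V)) (L : Sym2 V → Finset ℕ) (l t D : ℕ) : Prop where
  loop : ∀ e ∈ E, ¬ e.IsDiag
  list : ∀ e ∈ E, #(L e) = l
  col : ∀ v c, #(T E L v c) ≤ t
  deg : ∀ v, #(E.filter fun e => v ∈ e) ≤ D

/-- regular state: a colour available at `v` is available at exactly `t` edges at `v` -/
structure Reg {V : Type} (E : Finset (Sym2 V)) (L : Sym2 V → Finset ℕ) (l t D : ℕ) : Prop where
  loop : ∀ e ∈ E, ¬ e.IsDiag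
  list : ∀ e ∈ E, #(L e) ≤ l
  col : ∀ v c, T E L v c = ∅ ∨ #(T E L v c) = t
  deg : ∀ v, #(E.filter fun e => v ∈ e) ≤ D

/-- `pick e a` is the colour picked by the edge `e` when its random coordinate is `a : Fin N`: every
colour of `L e` is picked for exactly one value `a`, for the other values nothing is picked -/
def IsPick {V : Type} (E : Finset (Sym2 V)) (L : Sym2 V → Finset ℕ) (N : ℕ)
    (pick : Sym2 V → Fin N → Option ℕ) : Prop :=
  ∀ e ∈ E, (∀ c ∈ L e, #(univ.filter fun a => pick e a = some c) = 1) ∧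
    ∀ a c, pick e a = some c → c ∈ L e

/-- `e` picks `c` -/
def Pk {V : Type} {N : ℕ} (pick : Sym2 V → Fin N → Option ℕ) (ω : Sym2 V → Fin N) (e : Sym2 V)
    (c : ℕ) : Prop := pick e (ω e) = some c

/-- `e` retains `c`: it picks `c` and no edge adjacent to `e` picks `c` -/
def Ret {V : Type} {N : ℕ} (E : Finset (Sym2 V)) (pick : Sym2 V → Fin N → Option ℕ)
    (ω : Sym2 V → Fin N) (e : Sym2 V) (c : ℕ) : Prop :=
  e ∈ E ∧ Pk pick ω e c ∧ ∀ e' ∈ E, Adj e e' → ¬ Pk pick ω e' c

/-- `c` is lost at `v`: some edge at `v` retains `c` -/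
def Lost {V : Type} {N : ℕ} (E : Finset (Sym2 V)) (pick : Sym2 V → Fin N → Option ℕ)
    (ω : Sym2 V → Fin N) (v : V) (c : ℕ) : Prop :=
  ∃ e, v ∈ e ∧ Ret E pick ω e c

/-- probability for the uniform measure on `Sym2 V → Fin N` -/
def Pr {V : Type} [Fintype V] {N : ℕ} (P : (Sym2 V → Fin N) → Prop) : ℝ :=
  (#(univ.filter P) : ℝ) / (Fintype.card (Sym2 V → Fin N) : ℝ)

/-- average for the uniform measure on `Sym2 V → Fin N` -/
def Av {V : Type} [Fintype V] {N : ℕ} (X : (Sym2 V → Fin N) → ℝ) : ℝ :=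
  (∑ ω, X ω) / (Fintype.card (Sym2 V → Fin N) : ℝ)

/-- the probability that a given edge retains a given colour (regular case) -/
def th (N t : ℕ) : ℝ := 1 / (N : ℝ) * (1 - 1 / (N : ℝ)) ^ (2 * t - 2)

/-- number of colours of `L f` lost at an endpoint of `f` -/
def XX {V : Type} {N : ℕ} (E : Finset (Sym2 V)) (L : Sym2 V → Finset ℕ)
    (pick : Sym2 V → Fin N → Option ℕ) (f : Sym2 V) (ω : Sym2 V → Fin N) : ℝ :=
  (#((L f).filter fun c => ∃ v ∈ f, Lost E pick ω v c) : ℝ)

/-- number of edges `f ∈ R` at `v` with `c ∈ L f` which retain no colour and such that `c` is not lost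
at the other endpoint of `f` -/
def YY {V : Type} {N : ℕ} (E R : Finset (Sym2 V)) (L : Sym2 V → Finset ℕ)
    (pick : Sym2 V → Fin N → Option ℕ) (v : V) (c : ℕ) (ω : Sym2 V → Fin N) : ℝ :=
  (#((T E L v c).filter fun f => f ∈ R ∧ (∀ c', ¬ Ret E pick ω f c') ∧
    ∀ w ∈ f, w ≠ v → ¬ Lost E pick ω w c) : ℝ)

/-- one minus the probability that `c` is lost at `v` -/
def KK (l t : ℕ) : ℝ := 1 - t * th (4 * l) t

/-- probability that an edge with `l` colours retains a colour -/
def aa (l t : ℕ) : ℝ := l * th (4 * l) t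

/-- allowed deviation -/
def ss (t D : ℕ) : ℝ := 100 * Real.sqrt (t * Real.log D)

end

end Pool.Agent.Helper46.NB
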